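import Pool.Agent.H18.TD.Targets

/-!
# The values are integer polynomials in fixed numbers (ARI)
-/

set_option autoImplicit false

open Polynomial Module Filter Topology Pool.Agent.H18.TD

namespace Pool.Agent.H13.TD1

/-- the exponential as a product of powers -/
theorem exp_prod {l c : ℕ} (ν : Fin l → ℕ) (Z : Fin l → Fin c → ℂ) (n : Fin c → ℕ) :
    Complex.exp (∑ a, (ν a : ℂ) * ∑ j, Z a j * (n j : ℂ)) =
      ∏ a, ∏ j, Complex.exp (Z a j) ^ (ν a * n j) := by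
  rw [Complex.exp_sum]
  refine Finset.prod_congr rfl fun a _ => ?_
  rw [Finset.mul_sum, Complex.exp_sum]
  refine Finset.prod_congr rfl fun j _ => ?_
  rw [← Complex.exp_nat_mul]
  congr 1
  push_cast
  ring

/-- calculus of representations -/
structure Cal {ι : Type} (x : ι → ℂ) : Prop where
  c : ∀ n : ℤ, Rep x 0 |(n : ℝ)| (n : ℂ)
  m : ∀ δ δ' : ℕ, ∀ L L' : ℝ, ∀ z, δ ≤ δ' → L ≤ L' → Rep x δ L z → Rep x δ' L' z
  v : ∀ i, Rep x 1 1 (x i)
  mul : ∀ δ δ' : ℕ, ∀ L L' : ℝ, ∀ z z', Rep x δ L z → Rep x δ' L' z' →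
    Rep x (δ + δ') (L * L') (z * z')
  pow : ∀ δ n : ℕ, ∀ L : ℝ, ∀ z, Rep x δ L z → Rep x (n * δ) (L ^ n) (z ^ n)
  sum : ∀ (Ω : Type) (s : Finset Ω) (δ : ℕ) (L : Ω → ℝ) (z : Ω → ℂ),
    (∀ w ∈ s, Rep x δ (L w) (z w)) → Rep x δ (∑ w ∈ s, L w) (∑ w ∈ s, z w)
  prod : ∀ (Ω : Type) (s : Finset Ω) (δ : Ω → ℕ) (L : Ω → ℝ) (z : Ω → ℂ),
    (∀ w ∈ s, Rep x (δ w) (L w) (z w)) → Rep x (∑ w ∈ s, δ w) (∏ w ∈ s, L w) (∏ w ∈ s, z w)

theorem cal_of (h : T_REP) {ι : Type} (x : ι → ℂ) : Cal x := by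
  obtain ⟨h1, h2, h3, -, h5, h6, h7, h8⟩ := h ι x
  exact ⟨h1, h2, h3, h5, h6, h7, h8⟩

section

variable {ι : Type} {x : ι → ℂ}

theorem cal_nat (K : Cal x) (n : ℕ) : Rep x 0 (n : ℝ) (n : ℂ) := by
  have h := K.c (n : ℤ)
  simpa using h

theorem der_rep (K : Cal x) {Ly Lt : ℝ} {y θ : ℂ} (hy1 : 1 ≤ Ly) (ht0 : 0 ≤ Lt)
    (hy : Rep x 1 Ly y) (hθ : Rep x 1 Lt θ) (μ τ : ℕ) :
    Rep x (μ + τ) (Ly ^ μ * ((μ : ℝ) + Lt) ^ τ) (der μ θ τ y) := by
  have key : ∀ κ ∈ Finset.range (τ + 1),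
      Rep x (μ + τ) (Ly ^ μ * ((μ : ℝ) ^ κ * Lt ^ (τ - κ) * (τ.choose κ : ℝ)))
        ((τ.choose κ : ℂ) * (μ.descFactorial κ : ℂ) * y ^ (μ - κ) * θ ^ (τ - κ)) := by
    intro κ _
    have h1 := K.mul _ _ _ _ _ _ (K.mul _ _ _ _ _ _ (K.mul _ _ _ _ _ _
      (cal_nat K (τ.choose κ)) (cal_nat K (μ.descFactorial κ))) (K.pow 1 (μ - κ) Ly y hy))
      (K.pow 1 (τ - κ) Lt θ hθ)
    refine K.m _ _ _ _ _ (by omega) ?_ h1
    have e1 : (μ.descFactorial κ : ℝ) ≤ (μ : ℝ) ^ κ := by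
      exact_mod_cast Nat.descFactorial_le_pow μ κ
    have e2 : Ly ^ (μ - κ) ≤ Ly ^ μ := pow_le_pow_right₀ hy1 (Nat.sub_le μ κ)
    calc (τ.choose κ : ℝ) * (μ.descFactorial κ : ℝ) * Ly ^ (μ - κ) * Lt ^ (τ - κ) ≤
        (τ.choose κ : ℝ) * (μ : ℝ) ^ κ * Ly ^ μ * Lt ^ (τ - κ) := by gcongr
      _ = _ := by ring
  have h2 := K.sum ℕ (Finset.range (τ + 1)) (μ + τ) _ _ key
  rw [← Finset.mul_sum, ← add_pow] at h2
  exact h2

theorem lin_rep (K : Cal x) {c : ℕ} (u : Fin c → ℂ) (hu : ∀ j, Rep x 1 1 (u j))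
    (s : Fin c → ℤ) (B : ℝ) (hs : ∀ j, |(s j : ℝ)| ≤ B) :
    Rep x 1 (c * B) (∑ j, u j * (s j : ℂ)) := by
  have h1 : ∀ j ∈ (Finset.univ : Finset (Fin c)), Rep x 1 B (u j * (s j : ℂ)) :=
    fun j _ => K.m _ _ _ _ _ (by norm_num) (by rw [one_mul]; exact hs j)
      (K.mul _ _ _ _ _ _ (hu j) (K.c (s j)))
  have h2 := K.sum (Fin c) Finset.univ 1 (fun _ => B) (fun j => u j * (s j : ℂ)) h1
  simpa using h2

theorem exp_rep (K : Cal x) {l c : ℕ} (Z : Fin l → Fin c → ℂ)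
    (hZ : ∀ a j, Rep x 1 1 (Complex.exp (Z a j))) (ν : Fin l → ℕ) (s : Fin c → ℤ)
    (A B : ℕ) (hν : ∀ a, ν a ≤ A) (hs0 : ∀ j, 0 ≤ s j) (hs : ∀ j, s j ≤ B) :
    Rep x (l * (c * (A * B))) 1
      (Complex.exp (∑ a, (ν a : ℂ) * ∑ j, Z a j * (s j : ℂ))) := by
  obtain ⟨n, hn⟩ : ∃ n : Fin c → ℕ, ∀ j, s j = (n j : ℤ) :=
    ⟨fun j => (s j).toNat, fun j => (Int.toNat_of_nonneg (hs0 j)).symm⟩
  have e1 : (∑ a, (ν a : ℂ) * ∑ j, Z a j * (s j : ℂ)) =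
      ∑ a, (ν a : ℂ) * ∑ j, Z a j * (n j : ℂ) := by
    refine Finset.sum_congr rfl fun a _ => ?_
    congr 1
    refine Finset.sum_congr rfl fun j _ => ?_
    rw [hn j, Int.cast_natCast]
  rw [e1, exp_prod]
  have hnB : ∀ j, n j ≤ B := fun j => by
    have := hs j
    rw [hn j] at this
    exact_mod_cast this
  have h1 : ∀ a ∈ (Finset.univ : Finset (Fin l)), Rep x (c * (A * B)) 1
      (∏ j, Complex.exp (Z a j) ^ (ν a * n j)) := by
    intro a _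
    have h2 := K.prod (Fin c) Finset.univ (fun j => ν a * n j * 1) (fun j => 1 ^ (ν a * n j))
      (fun j => Complex.exp (Z a j) ^ (ν a * n j))
      (fun j _ => K.pow 1 (ν a * n j) 1 _ (hZ a j))
    refine K.m _ _ _ _ _ ?_ (le_of_eq (by simp)) h2
    calc ∑ j : Fin c, ν a * n j * 1 ≤ ∑ _j : Fin c, A * B :=
        Finset.sum_le_sum fun j _ => by
          rw [mul_one]
          exact Nat.mul_le_mul (hν a) (hnB j)
      _ = c * (A * B) := by simp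
  have h3 := K.prod (Fin l) Finset.univ (fun _ => c * (A * B)) (fun _ => 1) _ h1
  simpa using h3

end

theorem hlog {h : ℕ} (hh : 3 ≤ h) : 1 ≤ Real.log h := by
  have h3 : (3 : ℝ) ≤ (h : ℝ) := by exact_mod_cast hh
  rw [Real.le_log_iff_exp_le (by linarith)]
  have := Real.exp_one_lt_d9
  linarith

theorem pw {h : ℕ} (hh : 3 ≤ h) (n : ℕ) : (h : ℝ) ^ n = Real.exp (n * Real.log h) := by
  have h3 : (0 : ℝ) < (h : ℝ) := by exact_mod_cast (by omega : 0 < h)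
  rw [Real.exp_nat_mul, Real.exp_log h3]

/-- `(1 + k) h ^ n` -/
theorem opw {h : ℕ} (hh : 3 ≤ h) (k n : ℕ) :
    (1 + (k : ℝ)) * (h : ℝ) ^ n ≤ Real.exp (((k : ℝ) + n) * Real.log h) := by
  have hl := hlog hh
  rw [pw hh n, add_mul (k : ℝ), Real.exp_add]
  refine mul_le_mul_of_nonneg_right ?_ (Real.exp_pos _).le
  have h1 := Real.add_one_le_exp ((k : ℝ) * Real.log h)
  have h2 : (0 : ℝ) ≤ (k : ℝ) := Nat.cast_nonneg k
  nlinarith

theorem pow_exp_le {A g H : ℝ} {n : ℕ} (hA : 0 ≤ A * g) (hn : (n : ℝ) ≤ H) :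
    Real.exp (A * g) ^ n ≤ Real.exp (A * (H * g)) := by
  rw [← Real.exp_nat_mul]
  refine Real.exp_le_exp.2 ?_
  nlinarith

theorem pf_ARI : T_REP → T_ARI := by
  intro hREP t r l c X Y a b m M hM
  have K := cal_of hREP (xx t X Y)
  set Ay : ℝ := ((c * (r + l) : ℕ) : ℝ) + ((b * m : ℕ) : ℝ) with hAy
  set At : ℝ := (l : ℝ) + (M : ℝ) with hAt
  have hAy0 : 0 ≤ Ay := by positivity
  have hAt0 : 0 ≤ At := by positivity
  refine ⟨((M * r + a * m * l + M : ℕ) : ℝ) + 1 + r * (Ay + (r + l) * At), ?_, ?_⟩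
  · have : (0 : ℝ) ≤ ((M * r + a * m * l + M : ℕ) : ℝ) + r * (Ay + (r + l) * At) := by
      positivity
    linarith
  intro h hh p hp τ hτ s hs
  have hl := hlog hh
  have h1 : (1 : ℝ) ≤ (h : ℝ) := by exact_mod_cast (by omega : 1 ≤ h)
  have h1' : 1 ≤ h := by omega
  have hH : (1 : ℝ) ≤ (h : ℝ) ^ M := one_le_pow₀ h1
  have hHg : 0 ≤ (h : ℝ) ^ M * Real.log h := by positivity
  set Ly : ℝ := 1 + c * (((r + l : ℕ) : ℝ) * (h : ℝ) ^ (b * m)) with hLy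
  set Lt : ℝ := l * (h : ℝ) ^ (a * m) with hLt
  have hLy1 : 1 ≤ Ly := by
    have : 0 ≤ (c : ℝ) * (((r + l : ℕ) : ℝ) * (h : ℝ) ^ (b * m)) := by positivity
    linarith
  have hLt0 : 0 ≤ Lt := by positivity
  have hLyE : Ly ≤ Real.exp (Ay * Real.log h) := by
    refine le_trans ?_ (opw hh (c * (r + l)) (b * m))
    have : (1 : ℝ) ≤ (h : ℝ) ^ (b * m) := one_le_pow₀ h1
    rw [hLy]
    push_cast
    nlinarith
  have hLtE : ∀ μ : ℕ, μ ≤ h ^ M → (μ : ℝ) + Lt ≤ Real.exp (At * Real.log h) := by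
    intro μ hμ
    refine le_trans ?_ (opw hh l M)
    have e1 : (μ : ℝ) ≤ (h : ℝ) ^ M := by exact_mod_cast hμ
    have e2 : (h : ℝ) ^ (a * m) ≤ (h : ℝ) ^ M :=
      pow_le_pow_right₀ h1 (by rw [hM]; exact Nat.mul_le_mul_right m (Nat.le_add_right a b))
    have e3 : (0 : ℝ) ≤ (l : ℝ) := Nat.cast_nonneg l
    rw [hLt]
    nlinarith
  have hsB : ∀ j, |(s j : ℝ)| ≤ ((r + l : ℕ) : ℝ) * (h : ℝ) ^ (b * m) := by
    intro j
    have e1 : (0 : ℝ) ≤ (s j : ℝ) := by exact_mod_cast (hs j).1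
    rw [abs_of_nonneg e1]
    have e2 := (hs j).2
    have e3 : (s j : ℝ) ≤ ((((r : ℤ) + l) * (h : ℤ) ^ (b * m) : ℤ) : ℝ) := by
      exact_mod_cast e2
    push_cast at e3 ⊢
    exact e3
  have hyR : ∀ i, Rep (xx t X Y) 1 Ly (∑ j, Y i j * (s j : ℂ)) := fun i =>
    K.m _ _ _ _ _ le_rfl (by rw [hLy]; linarith)
      (lin_rep K (fun j => Y i j) (fun j => K.v (Sum.inr (Sum.inr (Sum.inl (i, j))))) s _ hsB)
  have hθR : ∀ (ν : Fin l → Fin (h ^ (a * m))) (i : Fin r),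
      Rep (xx t X Y) 1 Lt (th X ν i) := by
    intro ν i
    have e1 := lin_rep K (fun q => X q i) (fun q => K.v (Sum.inr (Sum.inl (q, i))))
      (fun q => ((ν q : ℕ) : ℤ)) ((h : ℝ) ^ (a * m)) (fun q => by
        have e2 : ((ν q : ℕ) : ℝ) ≤ (h : ℝ) ^ (a * m) := by exact_mod_cast (ν q).2.le
        simpa using e2)
    have e3 : th X ν i = ∑ q, X q i * ((((ν q : ℕ) : ℤ)) : ℂ) := by
      unfold th
      refine Finset.sum_congr rfl fun q _ => ?_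
      rw [Int.cast_natCast, mul_comm]
    rw [e3]
    exact e1
  have hderR : ∀ (w : Un r l (h ^ M) (h ^ (a * m)) (h ^ M)) (i : Fin r),
      Rep (xx t X Y) ((1 + r + l) * h ^ M)
        (Real.exp ((Ay + (r + l) * At) * ((h : ℝ) ^ M * Real.log h)))
        (der (w.1 i) (th X w.2.1 i) (τ i) (∑ j, Y i j * (s j : ℂ))) := by
    intro w i
    have e1 := der_rep K hLy1 hLt0 (hyR i) (hθR w.2.1 i) (w.1 i) (τ i)
    refine K.m _ _ _ _ _ ?_ ?_ e1
    · have e2 := (w.1 i).2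
      have e3 := hτ i
      calc ((w.1 i : ℕ)) + τ i ≤ h ^ M + (r + l) * h ^ M := Nat.add_le_add e2.le e3
        _ = (1 + r + l) * h ^ M := by ring
    · have e2 : ((w.1 i : ℕ) : ℝ) ≤ (h : ℝ) ^ M := by exact_mod_cast (w.1 i).2.le
      have e3 : ((τ i : ℕ) : ℝ) ≤ (r + l) * (h : ℝ) ^ M := by exact_mod_cast hτ i
      have e4 : Ly ^ (w.1 i : ℕ) ≤ Real.exp (Ay * ((h : ℝ) ^ M * Real.log h)) :=
        (pow_le_pow_left₀ (by linarith) hLyE _).trans (pow_exp_le (by positivity) e2)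
      have e5 : (((w.1 i : ℕ) : ℝ) + Lt) ^ τ i ≤
          Real.exp (At * ((r + l) * (h : ℝ) ^ M * Real.log h)) :=
        (pow_le_pow_left₀ (by positivity) (hLtE _ (w.1 i).2.le) _).trans
          (pow_exp_le (by positivity) e3)
      calc Ly ^ (w.1 i : ℕ) * (((w.1 i : ℕ) : ℝ) + Lt) ^ τ i ≤
          Real.exp (Ay * ((h : ℝ) ^ M * Real.log h)) *
            Real.exp (At * ((r + l) * (h : ℝ) ^ M * Real.log h)) :=
            mul_le_mul e4 e5 (by positivity) (Real.exp_pos _).le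
        _ = _ := by
            rw [← Real.exp_add]
            congr 1
            ring
  have hwR : ∀ w ∈ (Finset.univ : Finset (Un r l (h ^ M) (h ^ (a * m)) (h ^ M))),
      Rep (xx t X Y) ((1 + r * (1 + r + l) + l * c * (r + l)) * h ^ M)
        (Real.exp ((1 + r * (Ay + (r + l) * At)) * ((h : ℝ) ^ M * Real.log h)))
        ((p w : ℂ) * t ^ (w.2.2 : ℕ) *
          Complex.exp (∑ a, ((w.2.1 a : ℕ) : ℂ) * ∑ j, (X * Y) a j * (s j : ℂ)) *
          ∏ i, der (w.1 i) (th X w.2.1 i) (τ i) (∑ j, Y i j * (s j : ℂ))) := by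
    intro w _
    have r1 := K.c (p w)
    have r2 := K.pow 1 (w.2.2 : ℕ) 1 t (K.v (Sum.inl ()))
    have r3 := exp_rep K (fun q j => (X * Y) q j)
      (fun q j => K.v (Sum.inr (Sum.inr (Sum.inr (q, j))))) (fun q => (w.2.1 q : ℕ)) s
      (h ^ (a * m)) ((r + l) * h ^ (b * m)) (fun q => (w.2.1 q).2.le) (fun j => (hs j).1)
      (fun j => by
        have := (hs j).2
        push_cast
        exact this)
    have r4 := K.prod (Fin r) Finset.univ (fun _ => (1 + r + l) * h ^ M)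
      (fun _ => Real.exp ((Ay + (r + l) * At) * ((h : ℝ) ^ M * Real.log h)))
      (fun i => der (w.1 i) (th X w.2.1 i) (τ i) (∑ j, Y i j * (s j : ℂ)))
      (fun i _ => hderR w i)
    have r5 := K.mul _ _ _ _ _ _ (K.mul _ _ _ _ _ _ (K.mul _ _ _ _ _ _ r1 r2) r3) r4
    refine K.m _ _ _ _ _ ?_ ?_ r5
    · have e2 := (w.2.2).2.le
      have e3 : h ^ (a * m) * h ^ (b * m) = h ^ M := by rw [← pow_add, hM, add_mul]
      simp only [Finset.sum_const, Finset.card_univ, Fintype.card_fin, smul_eq_mul]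
      calc 0 + (w.2.2 : ℕ) * 1 + l * (c * (h ^ (a * m) * ((r + l) * h ^ (b * m)))) +
          r * ((1 + r + l) * h ^ M) ≤ 0 + h ^ M * 1 +
            l * (c * (h ^ (a * m) * ((r + l) * h ^ (b * m)))) + r * ((1 + r + l) * h ^ M) := by
            gcongr
        _ = (1 + r * (1 + r + l)) * h ^ M + l * c * (r + l) *
            (h ^ (a * m) * h ^ (b * m)) := by ring
        _ = _ := by rw [e3]; ring
    · have e2 : |(p w : ℝ)| ≤ Real.exp (1 * ((h : ℝ) ^ M * Real.log h)) := by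
        refine (hp w).trans (Real.exp_le_exp.2 ?_)
        nlinarith
      simp only [Finset.prod_const, Finset.card_univ, Fintype.card_fin, one_pow, mul_one]
      rw [← Real.exp_nat_mul, add_mul (1 : ℝ), Real.exp_add]
      refine mul_le_mul e2 (le_of_eq ?_) (Real.exp_pos _).le (Real.exp_pos _).le
      congr 1
      ring
  have hfin := K.sum _ Finset.univ _ _ _ hwR
  refine K.m _ _ _ _ _ le_rfl ?_ hfin
  rw [Finset.sum_const, nsmul_eq_mul]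
  have hcard : ((Finset.univ : Finset (Un r l (h ^ M) (h ^ (a * m)) (h ^ M))).card : ℝ) =
      (h : ℝ) ^ (M * r + a * m * l + M) := by
    rw [Finset.card_univ]
    simp only [Fintype.card_prod, Fintype.card_fun, Fintype.card_fin]
    push_cast
    rw [← pow_mul, ← pow_mul, pow_add, pow_add]
    ring
  rw [hcard, pw hh, ← Real.exp_add]
  refine Real.exp_le_exp.2 ?_
  have e9 : (0 : ℝ) ≤ ((M * r + a * m * l + M : ℕ) : ℝ) := Nat.cast_nonneg _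
  have e10 : ((M * r + a * m * l + M : ℕ) : ℝ) * Real.log h ≤
      ((M * r + a * m * l + M : ℕ) : ℝ) * ((h : ℝ) ^ M * Real.log h) := by
    refine mul_le_mul_of_nonneg_left ?_ e9
    nlinarith
  calc _ ≤ ((M * r + a * m * l + M : ℕ) : ℝ) * ((h : ℝ) ^ M * Real.log h) +
      (1 + r * (Ay + (r + l) * At)) * ((h : ℝ) ^ M * Real.log h) := by gcongr
    _ = _ := by ring

end Pool.Agent.H13.TD1
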